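import Pool.Agent.ACK.StmtsD

/-! Row FIB of squad ACK: equal classes of pattern words. -/

set_option autoImplicit false

namespace Pool.Agent.ACK.H69

open Pool.Agent.ACK.D

theorem cx_add (s : ℕ) (i : Fin 6) : cx (6 * s + i.1) = i := by
  apply Fin.ext
  change (6 * s + i.1) % 6 = i.1
  have := i.2
  omega

theorem div_add (s : ℕ) (i : Fin 6) : (6 * s + i.1) / 6 = s := by
  have := i.2
  omega

theorem eq_of_cx (x : ℕ) (i : Fin 6) (h : cx x = i) : 6 * (x / 6) + i.1 = x := by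
  have h1 : x % 6 = i.1 := by rw [← h]; rfl
  omega

/-- the number of the letters of one chain -/
theorem card_chain (l : List ℕ) (a : Fin 6 → ℕ) (hl : ∀ x, x ∈ l ↔ x / 6 < a (cx x))
    (i : Fin 6) : Nat.card {x : {x // x ∈ l} // cx x.1 = i} = a i := by
  have e : {x : {x // x ∈ l} // cx x.1 = i} ≃ Fin (a i) :=
    { toFun := fun x => ⟨x.1.1 / 6, by
        have h := (hl x.1.1).1 x.1.2
        rw [x.2] at h
        exact h⟩
      invFun := fun s => ⟨⟨6 * s.1 + i.1, by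
        rw [hl, cx_add, div_add]
        exact s.2⟩, cx_add s.1 i⟩
      left_inv := by
        intro x
        apply Subtype.ext
        apply Subtype.ext
        exact eq_of_cx x.1.1 i x.2
      right_inv := by
        intro s
        apply Fin.ext
        exact div_add s.1 i }
  rw [Nat.card_congr e, Nat.card_fin]

theorem two_le_ln (b : Fin 6 → ℕ) (i : Fin 6) : 2 ≤ ln b i := by
  unfold ln
  split_ifs <;> omega

theorem ln_inj (b b' : Fin 6 → ℕ) (i j : Fin 6) (h : ln b' j = ln b i) : b' j = b i := by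
  unfold ln at h
  split_ifs at h <;> omega

theorem core (ilg : IlgStmt) (twn : TwnStmt) (wcl : WclStmt) (wil : WilStmt) (aut : AutStmt)
    (P P' : Pat) (hP : P = pat1 ∨ P = pat2) (hP' : P' = pat1 ∨ P' = pat2) (b b' : Fin 6 → ℕ)
    (h : Quot.mk Mv (Wd P (ln b)) = Quot.mk Mv (Wd P' (ln b'))) :
    ∃ π : Equiv.Perm (Fin 6), (∀ i j, P'.Q (π i) (π j) = P.Q i j) ∧ ∀ i, b' (π i) = b i := by
  obtain ⟨-, -, -, hm, hg⟩ := wcl P hP (ln b)
  obtain ⟨-, -, -, hm', -⟩ := wcl P' hP' (ln b')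
  obtain ⟨-, e, he⟩ := ilg _ _ h hg
  have hrow : ∀ P : Pat, (P = pat1 ∨ P = pat2) → ∀ i j, (∀ k, P.Q i k = P.Q j k) → i = j := by
    rintro P (rfl | rfl)
    · exact aut.2.2.1
    · exact aut.2.2.2
  have hcl : ∀ (l : List ℕ) (b : Fin 6 → ℕ), (∀ x, x ∈ l ↔ x / 6 < ln b (cx x)) →
      ∀ i, ∃ x y : {x // x ∈ l}, x ≠ y ∧ cx x.1 = i ∧ cx y.1 = i := by
    intro l b hl i
    have h2 := two_le_ln b i
    refine ⟨⟨6 * 0 + i.1, ?_⟩, ⟨6 * 1 + i.1, ?_⟩, ?_, cx_add 0 i, cx_add 1 i⟩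
    · rw [hl, cx_add, div_add]
      omega
    · rw [hl, cx_add, div_add]
      omega
    · intro h3
      have h4 := congrArg Subtype.val h3
      have h5 : 6 * 0 + i.1 = 6 * 1 + i.1 := h4
      omega
  obtain ⟨π, h1, h2⟩ := twn {x // x ∈ Wd P (ln b)} {x // x ∈ Wd P' (ln b')}
    (fun x y => Il (Wd P (ln b)) x.1 y.1) (fun x y => Il (Wd P' (ln b')) x.1 y.1) e
    (fun x => cx x.1) (fun x => cx x.1) P.Q P'.Q he (hrow P hP) (hrow P' hP')
    (fun x y hxy => wil P hP (ln b) x.1 y.1 ((hm _).1 x.2) ((hm _).1 y.2)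
      (fun h => hxy (Subtype.ext h)))
    (fun x y hxy => wil P' hP' (ln b') x.1 y.1 ((hm' _).1 x.2) ((hm' _).1 y.2)
      (fun h => hxy (Subtype.ext h)))
    (hcl _ b hm) (hcl _ b' hm')
  refine ⟨π, h1, ?_⟩
  intro i
  apply ln_inj
  rw [← card_chain _ _ hm i, ← card_chain _ _ hm' (π i)]
  apply Nat.card_congr
  refine Equiv.symm (Equiv.subtypeEquiv e ?_)
  intro x
  have h3 : cx (e x).1 = π (cx x.1) := h2 x
  rw [h3]
  exact ⟨fun h => by rw [h], fun h => π.injective h⟩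

theorem fib (ilg : IlgStmt) (twn : TwnStmt) (wcl : WclStmt) (wil : WilStmt) (aut : AutStmt) :
    FibStmt := by
  refine ⟨?_, ?_, ?_⟩
  · intro b b' h
    obtain ⟨π, h1, h2⟩ := core ilg twn wcl wil aut pat1 pat1 (Or.inl rfl) (Or.inl rfl) b b' h
    rcases aut.1 π h1 with rfl | rfl
    · left
      funext i
      exact h2 i
    · right
      exact h2
  · intro b b' h
    obtain ⟨π, -, h2⟩ := core ilg twn wcl wil aut pat2 pat2 (Or.inr rfl) (Or.inr rfl) b b' h
    exact ⟨π, h2⟩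
  · intro b b' h
    obtain ⟨π, h1, -⟩ := core ilg twn wcl wil aut pat1 pat2 (Or.inl rfl) (Or.inr rfl) b b' h
    exact aut.2.1 π h1

end Pool.Agent.ACK.H69
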